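import Pool.Agent.H18.GW.Ext
import Pool.Agent.H11.EL.Targets2

/-!
# WB: the derived group of an abelian by finite verbal subgroup
-/

set_option autoImplicit false

open scoped commutatorElement

namespace Pool.Agent.H4.GWD

open Pool.Agent.H11.EL Pool.Agent.H11.KT Pool.Agent.H18.GW

/-- commutators modulo central elements -/
lemma wb_comm {G : Type} [Group G] {t t' a a' : G} (h2 : Commute a t') (h3 : Commute a a')
    (h4 : Commute a' t) : ⁅t * a, t' * a'⁆ = ⁅t, t'⁆ := by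
  have e1 : a * (t' * a') * a⁻¹ = t' * a' := by
    rw [(h2.mul_right h3).eq, mul_inv_cancel_right]
  have e2 : a' * t⁻¹ * a'⁻¹ = t⁻¹ := by
    rw [h4.inv_right.eq, mul_inv_cancel_right]
  rw [commutatorElement_def, commutatorElement_def]
  calc t * a * (t' * a') * (t * a)⁻¹ * (t' * a')⁻¹ =
      t * (a * (t' * a') * a⁻¹) * t⁻¹ * (a'⁻¹ * t'⁻¹) := by group
    _ = t * (t' * a') * t⁻¹ * (a'⁻¹ * t'⁻¹) := by rw [e1]
    _ = t * t' * (a' * t⁻¹ * a'⁻¹) * t'⁻¹ := by group
    _ = _ := by rw [e2]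

/-- products of commutators with bounded elements -/
lemma wb_cp {r : ℕ} {w : FreeGroup (Fin r)} {G : Type} [Group G] (φ : ℕ → G) (a : ℕ → G)
    (d M : ℕ) (h : ∀ i < d, PW w M (φ i)) : PW w (d * (2 * M)) (cp d a φ) := by
  unfold cp
  have h1 := PW.list (w := w) (k := 2 * M) ((List.range d).map fun i => ⁅a i, φ i⁆) (by
    intro x hx
    rw [List.mem_map] at hx
    obtain ⟨i, hi, rfl⟩ := hx
    exact pw_comm_right (h i (List.mem_range.1 hi)) (a i))
  simpa using h1

/-- step one: the commutators with the abelian normal subgroup -/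
lemma wb_one (hVE : T_VE) {R : Type} [Group R] (hR : ∀ K : Subgroup R, K.FG) (A : Subgroup R)
    (hA : A.Normal) (hab : ∀ x ∈ A, ∀ y ∈ A, x * y = y * x) {r : ℕ} (w : FreeGroup (Fin r))
    (hAW : A ≤ Vb w R) : ∃ m : ℕ, ∀ g ∈ ⁅A, Vb w R⁆, PW w m g := by
  obtain ⟨W, hWdef⟩ : ∃ W : Subgroup R, W = Vb w R := ⟨_, rfl⟩
  rw [← hWdef] at hAW ⊢
  -- generators
  obtain ⟨S, hS⟩ : ∃ S : Finset W, Subgroup.closure (S : Set W) = ⊤ := by
    have h1 : Group.FG W := (Group.fg_iff_subgroup_fg W).2 (hR W)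
    obtain ⟨S, hS⟩ := Group.fg_def.1 h1
    exact ⟨S, hS⟩
  obtain ⟨s, hs⟩ : ∃ s : ℕ → W, {g : W | ∃ i < S.card, g = s i} = (S : Set W) := by
    refine ⟨fun i => if h : i < S.card then (S.equivFin.symm ⟨i, h⟩ : W) else 1, ?_⟩
    ext g
    constructor
    · rintro ⟨i, hi, rfl⟩
      beta_reduce
      rw [dif_pos hi]
      exact (S.equivFin.symm ⟨i, hi⟩).2
    · intro hg
      refine ⟨(S.equivFin ⟨g, hg⟩ : Fin S.card), (S.equivFin ⟨g, hg⟩).2, ?_⟩
      beta_reduce
      rw [dif_pos (S.equivFin ⟨g, hg⟩).2]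
      simp
  have hgen : Subgroup.closure {g : W | ∃ i < S.card, g = s i} = ⊤ := by rw [hs, hS]
  -- bounds for the generators
  obtain ⟨M, hM⟩ : ∃ M : ℕ, ∀ i < S.card, PW w M ((s i : W) : R) := by
    obtain ⟨M, hM⟩ := pw_finite (w := w) ((fun i => ((s i : W) : R)) '' {i | i < S.card})
      ((Set.finite_lt_nat _).image _) (by
        rintro _ ⟨i, _, rfl⟩
        exact hWdef.le (s i).2)
    exact ⟨M, fun i hi => hM _ ⟨i, hi, rfl⟩⟩
  refine ⟨S.card * (2 * M), fun g hg => ?_⟩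
  have hAn : (A.subgroupOf W).Normal := Subgroup.Normal.subgroupOf hA W
  have h1 : g ∈ (⁅A.subgroupOf W, (⊤ : Subgroup W)⁆).map W.subtype := by
    rw [Subgroup.map_commutator, Subgroup.map_subgroupOf_eq_of_le hAW, ← MonoidHom.range_eq_map,
      Subgroup.range_subtype]
    exact hg
  obtain ⟨κ, hκ, rfl⟩ := h1
  obtain ⟨a, -, ha⟩ := hVE W (A.subgroupOf W) hAn (fun x hx y hy => by
    have := hab x hx y hy
    exact Subtype.ext this) S.card s hgen κ hκ
  have h2 : (W.subtype κ : R) = cp S.card (fun i => ((a i : W) : R)) (fun i => ((s i : W) : R)) := by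
    rw [← ha]
    unfold cp
    rw [map_list_prod, List.map_map]
    rfl
  rw [h2]
  exact wb_cp _ _ _ _ hM

theorem pf_WB (hVE : T_VE) : T_WB := by
  intro R _ hR A hA hab r w hAW hidx
  obtain ⟨m, hm⟩ := wb_one hVE hR A hA hab w hAW
  obtain ⟨W, hWdef⟩ : ∃ W : Subgroup R, W = Vb w R := ⟨_, rfl⟩
  have hWn : W.Normal := by rw [hWdef]; infer_instance
  rw [← hWdef] at hm hAW hidx ⊢
  obtain ⟨L, hLdef⟩ : ∃ L : Subgroup R, L = ⁅A, W⁆ := ⟨_, rfl⟩
  have hLn : L.Normal := by rw [hLdef]; infer_instance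
  rw [← hLdef] at hm
  set π := QuotientGroup.mk' L with hπ
  -- elements of `A` are central modulo `L`
  have hcen : ∀ a ∈ A, ∀ x ∈ W, Commute (π a) (π x) := by
    intro a ha x hx
    have h1 : ⁅a, x⁆ ∈ L := by rw [hLdef]; exact Subgroup.commutator_mem_commutator ha hx
    have h2 : π ⁅a, x⁆ = 1 := (QuotientGroup.eq_one_iff _).2 h1
    rw [map_commutatorElement, commutatorElement_eq_one_iff_mul_comm] at h2
    exact h2
  -- the image of `W`
  have hWb : W.map π = Vb w (R ⧸ L) := by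
    rw [hWdef]; exact Vb_map w π (QuotientGroup.mk'_surjective L)
  -- coset representatives
  have hfi : (A.subgroupOf W).FiniteIndex := ⟨hidx⟩
  have hfq : Finite (W ⧸ A.subgroupOf W) := inferInstance
  set Y : Set (R ⧸ L) := Set.range fun p : (W ⧸ A.subgroupOf W) × (W ⧸ A.subgroupOf W) =>
    π ⁅((Quotient.out p.1 : W) : R), ((Quotient.out p.2 : W) : R)⁆ with hY
  have hYf : Y.Finite := Set.finite_range _
  have hrep : ∀ x ∈ W, ∃ q : W ⧸ A.subgroupOf W, ∃ a ∈ A, x = ((Quotient.out q : W) : R) * a := by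
    intro x hx
    refine ⟨QuotientGroup.mk ⟨x, hx⟩, ((Quotient.out (QuotientGroup.mk ⟨x, hx⟩ :
      W ⧸ A.subgroupOf W) : W) : R)⁻¹ * x, ?_, by group⟩
    have h1 : (QuotientGroup.mk (Quotient.out (QuotientGroup.mk ⟨x, hx⟩ :
      W ⧸ A.subgroupOf W)) : W ⧸ A.subgroupOf W) = QuotientGroup.mk ⟨x, hx⟩ :=
      QuotientGroup.out_eq' _
    have h2 := QuotientGroup.eq.1 h1
    exact h2
  have hsub : ∀ x ∈ W, ∀ y ∈ W, π ⁅x, y⁆ ∈ Y := by
    intro x hx y hy
    obtain ⟨q, a, ha, rfl⟩ := hrep x hx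
    obtain ⟨q', a', ha', rfl⟩ := hrep y hy
    refine ⟨(q, q'), ?_⟩
    show π ⁅((Quotient.out q : W) : R), ((Quotient.out q' : W) : R)⁆ = _
    rw [map_commutatorElement, map_commutatorElement, map_mul, map_mul]
    refine (wb_comm (hcen a ha _ (Quotient.out q' : W).2) (hcen a ha a' (hAW ha'))
      (hcen a' ha' _ (Quotient.out q : W).2)).symm
  have hfin : Finite (commutatorSet (W.map π)) := by
    have h1 : (commutatorSet (W.map π)) ⊆ (fun x : W.map π => (x : R ⧸ L)) ⁻¹' Y := by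
      rintro _ ⟨⟨_, x, hx, rfl⟩, ⟨_, y, hy, rfl⟩, rfl⟩
      have := hsub x hx y hy
      rw [map_commutatorElement] at this
      exact this
    exact ((hYf.preimage (Subtype.val_injective.injOn)).subset h1).to_subtype
  have hfc : Finite (commutator (W.map π)) := inferInstance
  have hcm : ((⁅W.map π, W.map π⁆ : Subgroup (R ⧸ L)) : Set (R ⧸ L)) =
      (fun x : W.map π => (x : R ⧸ L)) '' (commutator (W.map π)) := by
    have h1 : (commutator (W.map π)).map (W.map π).subtype = ⁅W.map π, W.map π⁆ := by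
      rw [commutator_def, Subgroup.map_commutator, ← MonoidHom.range_eq_map,
        Subgroup.range_subtype]
    rw [← h1]
    rfl
  have hcf : ((⁅W.map π, W.map π⁆ : Subgroup (R ⧸ L)) : Set (R ⧸ L)).Finite := by
    rw [hcm]
    exact (Set.toFinite _).image _
  obtain ⟨n, hn⟩ := pw_finite (w := w) ((⁅W.map π, W.map π⁆ : Subgroup (R ⧸ L)) : Set (R ⧸ L))
    hcf (by
      rw [hWb]
      exact Subgroup.commutator_le_left _ _)
  refine ⟨n + m, fun g hg => pw_ext L hm (hn _ ?_)⟩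
  rw [SetLike.mem_coe, ← Subgroup.map_commutator]
  exact ⟨g, hg, rfl⟩

end Pool.Agent.H4.GWD
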